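import Mathlib

namespace Pool.Agent.Results.MP_f804be_nt.Full

/-- `n ∈ hA`: `n` is a sum of `h` elements of `A`, repetitions allowed. -/
def IsSum (A : Set ℕ) (h n : ℕ) : Prop :=
  ∃ s : Multiset ℕ, s.card = h ∧ (∀ a ∈ s, a ∈ A) ∧ s.sum = n

/-- `A` is an asymptotic basis of order `h`: the complement of `hA` is finite. -/
def IsAsympBasis (h : ℕ) (A : Set ℕ) : Prop := {n : ℕ | ¬ IsSum A h n}.Finite

/-- `A` is an `r`-minimal asymptotic basis of order `h`. -/
def IsRMinimal (h r : ℕ) (A : Set ℕ) : Prop :=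
  ∀ S : Set ℕ, S ⊆ A → (IsAsympBasis h (A \ S) ↔ S.encard < (r : ℕ∞))

lemma IsSum.mono' {A B : Set ℕ} {t n : ℕ} (hs : IsSum A t n)
    (hAB : ∀ x ∈ A, x ≤ n → x ∈ B) : IsSum B t n := by
  obtain ⟨s, h1, h2, h3⟩ := hs
  refine ⟨s, h1, fun a ha => hAB a (h2 a ha) ?_, h3⟩
  rw [← h3]
  exact Multiset.single_le_sum (fun x _ => Nat.zero_le x) a ha

lemma IsSum.mono {A B : Set ℕ} {t n : ℕ} (hs : IsSum A t n) (hAB : A ⊆ B) : IsSum B t n :=
  hs.mono' fun _ hx _ => hAB hx

lemma IsSum.cons {A : Set ℕ} {t n a : ℕ} (hs : IsSum A t n) (ha : a ∈ A) :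
    IsSum A (t + 1) (a + n) := by
  obtain ⟨s, h1, h2, h3⟩ := hs
  refine ⟨a ::ₘ s, by simp [h1], ?_, by simp [h3]⟩
  intro x hx
  rcases Multiset.mem_cons.mp hx with rfl | hx
  · exact ha
  · exact h2 x hx

lemma isSum_rep {A : Set ℕ} {a : ℕ} (ha : a ∈ A) (t : ℕ) : IsSum A t (t * a) := by
  refine ⟨Multiset.replicate t a, by simp, ?_, by simp⟩
  intro x hx
  rw [Multiset.eq_of_mem_replicate hx]; exact ha

lemma isSum_one {A : Set ℕ} {n : ℕ} : IsSum A 1 n ↔ n ∈ A := by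
  constructor
  · rintro ⟨s, h1, h2, h3⟩
    obtain ⟨a, rfl⟩ := Multiset.card_eq_one.mp h1
    have : a = n := by simpa using h3
    subst this
    exact h2 a (by simp)
  · intro hn
    simpa using isSum_rep hn 1

/-- A sum of `t + 1` elements exceeding `(t + 1) E` has a summand above `E`. -/
lemma IsSum.exists_big {A : Set ℕ} {t n E : ℕ} (hs : IsSum A (t + 1) n) (hn : (t + 1) * E < n) :
    ∃ a ∈ A, E < a ∧ a ≤ n ∧ IsSum A t (n - a) := by
  obtain ⟨s, h1, h2, h3⟩ := hs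
  have : ∃ a ∈ s, E < a := by
    by_contra hc
    push Not at hc
    have := Multiset.sum_le_card_nsmul s E hc
    rw [h1, h3, smul_eq_mul] at this
    omega
  obtain ⟨a, ha, hE⟩ := this
  obtain ⟨s', rfl⟩ := Multiset.exists_cons_of_mem ha
  simp only [Multiset.card_cons, Multiset.sum_cons] at h1 h3
  refine ⟨a, h2 a ha, hE, by omega, s', by omega, fun x hx => h2 x (Multiset.mem_cons_of_mem hx),
    by omega⟩

lemma interval {B : Set ℕ} {G E : ℕ} (hB : ∀ x, G ≤ x → x ≤ E → x ∈ B) (hGE : G ≤ E) :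
    ∀ t n, t * G ≤ n → n ≤ t * E → IsSum B t n := by
  intro t
  induction t with
  | zero =>
    intro n _ h2
    have : n = 0 := by omega
    subst this
    exact ⟨0, by simp, by simp, by simp⟩
  | succ t ih =>
    intro n h1 h2
    have hm : t * G ≤ t * E := Nat.mul_le_mul_left t hGE
    rw [Nat.succ_mul] at h1 h2
    by_cases hc : n ≤ t * E + G
    · have := (ih (n - G) (by omega) (by omega)).cons (hB G le_rfl hGE)
      rwa [show G + (n - G) = n by omega] at this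
    · have := (ih (t * E) hm le_rfl).cons (hB (n - t * E) (by omega) (by omega))
      rwa [show n - t * E + t * E = n by omega] at this

lemma cover {B : Set ℕ} {G E h r a : ℕ} (hB : ∀ x, G ≤ x → x ≤ E → x ∈ B) (hh : 1 ≤ h)
    (ha : a ∈ B) (har : a < r) (hE : h * G ≤ E) :
    ∀ n, G + h * r ≤ n → n ≤ h * E → IsSum B h n := by
  intro n h1 h2
  have hG : G ≤ h * G := Nat.le_mul_of_pos_left G hh
  by_cases hc : n ≤ E
  · obtain ⟨k, rfl⟩ : ∃ k, h = k + 1 := ⟨h - 1, by omega⟩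
    have hka : k * a ≤ (k + 1) * r := Nat.mul_le_mul (by omega) har.le
    have := (isSum_rep ha k).cons (hB (n - k * a) (by omega) (by omega))
    rwa [show n - k * a + k * a = n by omega] at this
  · exact interval hB (by omega) h n (by omega) h2

lemma exists_small {r : ℕ} (F : Finset ℕ) (hF : F.card < r) : ∃ a, a < r ∧ a ∉ F := by
  by_contra hc
  push Not at hc
  have : Finset.range r ⊆ F := fun x hx => hc x (Finset.mem_range.mp hx)
  have := Finset.card_le_card this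
  rw [Finset.card_range] at this
  omega

/-- The invariant of the inner construction, at level `t`. -/
structure Lev (h r M : ℕ) (A0 : Set ℕ) (S : Finset ℕ) (t : ℕ) (A : Set ℕ) (E : ℕ)
    (Y : Set ℕ) : Prop where
  sub : A0 ⊆ A
  old : ∀ x ∈ A, x ≤ M → x ∈ A0
  bdd : ∀ x ∈ A, x ≤ E
  ME : M < E
  Ybdd : ∀ y ∈ Y, y ≤ E
  big : ∃ y ∈ Y, M < y
  blocked : ∀ y ∈ Y, ¬ IsSum (A \ (S : Set ℕ)) t y
  fam : ∀ F : Finset ℕ, (∀ x ∈ F, x ≤ M) → F.card < r → ∀ e ≤ h * r,
    ∃ y ∈ Y, IsSum (A \ (F : Set ℕ)) t (y + e)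
  cov : ∀ F : Finset ℕ, (∀ x ∈ F, x ≤ M) → F.card < r → ∀ n, h * M < n → n ≤ h * E →
    IsSum (A \ (F : Set ℕ)) h n

lemma lev_one {h r M : ℕ} {A0 : Set ℕ} {S : Finset ℕ} (hh : 2 ≤ h) (hM : h * r + 1 ≤ M)
    (hsm : ∀ x, x < r → x ∈ A0) (hb : ∀ x ∈ A0, x ≤ M) (hS : ∀ x ∈ S, x ∈ A0)
    (hSc : r ≤ S.card) : ∃ A E Y, Lev h r M A0 S 1 A E Y := by
  have h1 : M + 2 ≤ h * (M + 2) := Nat.le_mul_of_pos_left _ (by omega)
  have h2 : 2 * M ≤ h * M := Nat.mul_le_mul_right M hh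
  refine ⟨A0 ∪ Set.Icc (M + 2) (h * (M + 2) + h * r), h * (M + 2) + h * r,
    (S : Set ℕ) ∪ {M + 1}, ?_⟩
  constructor
  · exact Set.subset_union_left
  · rintro x (hx | hx) hxM
    · exact hx
    · have := hx.1; omega
  · rintro x (hx | hx)
    · have := hb x hx; omega
    · exact hx.2
  · omega
  · rintro y (hy | hy)
    · have := hb y (hS y hy); omega
    · rw [Set.mem_singleton_iff] at hy; omega
  · exact ⟨M + 1, Or.inr rfl, by omega⟩
  · rintro y (hy | hy) hs
    · exact (isSum_one.mp hs).2 hy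
    · rw [Set.mem_singleton_iff] at hy
      subst hy
      rcases (isSum_one.mp hs).1 with hx | hx
      · have := hb _ hx; omega
      · have := hx.1; omega
  · intro F hF hFc e he
    rcases Nat.eq_zero_or_pos e with rfl | he0
    · have : ∃ s ∈ S, s ∉ F := by
        by_contra hc
        push Not at hc
        have := Finset.card_le_card (show S ⊆ F from hc)
        omega
      obtain ⟨s, hs, hsF⟩ := this
      exact ⟨s, Or.inl hs, isSum_one.mpr ⟨Or.inl (hS s hs), hsF⟩⟩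
    · refine ⟨M + 1, Or.inr rfl, isSum_one.mpr ⟨Or.inr ⟨by omega, by omega⟩, ?_⟩⟩
      intro hx
      have := hF _ hx
      omega
  · intro F hF hFc n hn1 hn2
    obtain ⟨a, har, haF⟩ := exists_small F hFc
    refine cover (G := M + 2) (E := h * (M + 2) + h * r) (r := r) (a := a) ?_ (by omega)
      (Set.mem_sdiff_of_mem (Or.inl (hsm a har)) haF) har (by omega) n (by omega) hn2
    intro x hx1 hx2
    refine ⟨Or.inr ⟨hx1, hx2⟩, fun hx => ?_⟩
    have := hF _ hx
    omega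

lemma lev_succ {h r M : ℕ} {A0 : Set ℕ} {S : Finset ℕ} (hM : h * r + 1 ≤ M)
    (hsm : ∀ x, x < r → x ∈ A0) {t : ℕ} (ht : 1 ≤ t) (hth : t + 1 ≤ h) {A : Set ℕ} {E : ℕ}
    {Y : Set ℕ} (L : Lev h r M A0 S t A E Y) : ∃ A' E' Y', Lev h r M A0 S (t + 1) A' E' Y' := by
  set N := (t + 1) * E + 1 with hN
  have hME := L.ME
  have hN2 : 2 * E + 1 ≤ N := by
    have : 2 * E ≤ (t + 1) * E := Nat.mul_le_mul_right E (by omega)
    omega
  have h1 : N + 1 ≤ h * (N + 1) := Nat.le_mul_of_pos_left _ (by omega)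
  set A' : Set ℕ := A ∪ {x | ∃ y ∈ Y, x + y = N} ∪ Set.Icc (N + 1) (h * (N + 1)) with hA'
  have hAA : A ⊆ A' := fun x hx => Or.inl (Or.inl hx)
  have hnew : ∀ x ∈ A', x ≤ E → x ∈ A := by
    rintro x ((hx | ⟨y, hy, hxy⟩) | hx) hxE
    · exact hx
    · have := L.Ybdd y hy; omega
    · have := hx.1; omega
  have hfam : ∀ F : Finset ℕ, (∀ x ∈ F, x ≤ M) → F.card < r → ∀ e ≤ h * r,
      IsSum (A' \ (F : Set ℕ)) (t + 1) (N + e) := by
    intro F hF hFc e he
    obtain ⟨y, hy, hs⟩ := L.fam F hF hFc e he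
    have hyE := L.Ybdd y hy
    have hmem : N - y ∈ A' \ (F : Set ℕ) := by
      refine ⟨Or.inl (Or.inr ⟨y, hy, by omega⟩), fun hx => ?_⟩
      have := hF _ hx
      omega
    have := (hs.mono (Set.sdiff_subset_sdiff_left hAA)).cons hmem
    rwa [show N - y + (y + e) = N + e by omega] at this
  refine ⟨A', h * (N + 1), {N}, ?_⟩
  constructor
  · exact L.sub.trans hAA
  · intro x hx hxM
    exact L.old x (hnew x hx (by omega)) hxM
  · rintro x ((hx | ⟨y, hy, hxy⟩) | hx)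
    · have := L.bdd x hx; omega
    · omega
    · exact hx.2
  · omega
  · intro y hy
    rw [Set.mem_singleton_iff] at hy; omega
  · exact ⟨N, rfl, by omega⟩
  · intro y hy hs
    rw [Set.mem_singleton_iff] at hy
    subst hy
    obtain ⟨a, ha, haE, haN, hs'⟩ := hs.exists_big (E := E) (by omega)
    rcases ha.1 with (hx | ⟨y, hy, hxy⟩) | hx
    · have := L.bdd a hx; omega
    · have hyE := L.Ybdd y hy
      apply L.blocked y hy
      rw [show N - a = y by omega] at hs'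
      exact hs'.mono' fun x hx hxy => ⟨hnew x hx.1 (by omega), hx.2⟩
    · have := hx.1; omega
  · intro F hF hFc e he
    exact ⟨N, rfl, hfam F hF hFc e he⟩
  · intro F hF hFc n hn1 hn2
    by_cases hc : n ≤ h * E
    · exact (L.cov F hF hFc n hn1 hc).mono (Set.sdiff_subset_sdiff_left hAA)
    by_cases hc2 : N + 1 + h * r ≤ n
    · obtain ⟨a, har, haF⟩ := exists_small F hFc
      refine cover (G := N + 1) (E := h * (N + 1)) (r := r) (a := a) ?_ (by omega)
        (Set.mem_sdiff_of_mem (hAA (L.sub (hsm a har))) haF) har le_rfl n hc2 hn2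
      intro x hx1 hx2
      refine ⟨Or.inr ⟨hx1, hx2⟩, fun hx => ?_⟩
      have := hF _ hx
      omega
    · rcases Nat.eq_or_lt_of_le hth with heq | hlt
      · have := hfam F hF hFc (n - N) (by omega)
        rw [heq] at this hN
        rwa [show N + (n - N) = n by omega] at this
      · exfalso
        have : (t + 1 + 1) * E ≤ h * E := Nat.mul_le_mul_right E hlt
        rw [Nat.succ_mul] at this
        omega

lemma lev_top {h r M : ℕ} {A0 : Set ℕ} {S : Finset ℕ} (hh : 2 ≤ h) (hM : h * r + 1 ≤ M)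
    (hsm : ∀ x, x < r → x ∈ A0) (hb : ∀ x ∈ A0, x ≤ M) (hS : ∀ x ∈ S, x ∈ A0)
    (hSc : r ≤ S.card) : ∃ A E Y, Lev h r M A0 S h A E Y := by
  have : ∀ t, 1 ≤ t → t ≤ h → ∃ A E Y, Lev h r M A0 S t A E Y := by
    intro t ht
    induction t, ht using Nat.le_induction with
    | base => intro _; exact lev_one hh hM hsm hb hS hSc
    | succ t ht ih =>
      intro hth
      obtain ⟨A, E, Y, L⟩ := ih (by omega)
      exact lev_succ hM hsm ht hth L
  exact this h (by omega) le_rfl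

/-- The invariant of the outer construction. -/
def Good (h r : ℕ) (p : Set ℕ × ℕ) : Prop :=
  h * r + 1 ≤ p.2 ∧ (∀ x, x < r → x ∈ p.1) ∧ ∀ x ∈ p.1, x ≤ p.2

/-- One outer stage, serving the finite set `S`. -/
def Step (h r : ℕ) (S : Finset ℕ) (p q : Set ℕ × ℕ) : Prop :=
  p.1 ⊆ q.1 ∧ (∀ x ∈ q.1, x ≤ p.2 → x ∈ p.1) ∧ p.2 < q.2 ∧
  (∀ F : Finset ℕ, (∀ x ∈ F, x ≤ p.2) → F.card < r → ∀ n, h * p.2 < n → n ≤ h * q.2 →
    IsSum (q.1 \ (F : Set ℕ)) h n) ∧
  ((∀ x ∈ S, x ∈ p.1) → r ≤ S.card →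
    ∃ y, p.2 < y ∧ y ≤ q.2 ∧ ¬ IsSum (q.1 \ (S : Set ℕ)) h y)

lemma exists_step {h r : ℕ} (hh : 2 ≤ h) (S : Finset ℕ) (p : Set ℕ × ℕ) (hp : Good h r p) :
    ∃ q, Good h r q ∧ Step h r S p q := by
  obtain ⟨hM, hsm, hb⟩ := hp
  by_cases hv : (∀ x ∈ S, x ∈ p.1) ∧ r ≤ S.card
  · obtain ⟨A, E, Y, L⟩ := lev_top hh hM hsm hb hv.1 hv.2
    have := L.ME
    refine ⟨(A, E), ⟨by simp only; omega, fun x hx => L.sub (hsm x hx), L.bdd⟩,
      L.sub, L.old, L.ME, L.cov, fun _ _ => ?_⟩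
    obtain ⟨y, hy, hMy⟩ := L.big
    exact ⟨y, hMy, L.Ybdd y hy, L.blocked y hy⟩
  · obtain ⟨A, E, Y, L⟩ := lev_top (S := Finset.range r) hh hM hsm hb
      (fun x hx => hsm x (Finset.mem_range.mp hx)) (by simp)
    have := L.ME
    exact ⟨(A, E), ⟨by simp only; omega, fun x hx => L.sub (hsm x hx), L.bdd⟩,
      L.sub, L.old, L.ME, L.cov, fun h1 h2 => absurd ⟨h1, h2⟩ hv⟩

lemma exists_seq {h r : ℕ} (hh : 2 ≤ h) (e : ℕ → Finset ℕ) :
    ∃ p : ℕ → Set ℕ × ℕ, ∀ k, Step h r (e k) (p k) (p (k + 1)) := by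
  choose f hf using fun S (p : {p // Good h r p}) => exists_step hh S p.1 p.2
  have h0 : Good h r (Set.Icc 0 (h * r + 1), h * r + 1) := by
    refine ⟨le_rfl, fun x hx => ⟨Nat.zero_le _, ?_⟩, fun x hx => hx.2⟩
    have : r ≤ h * r := Nat.le_mul_of_pos_left r (by omega)
    omega
  let p : ℕ → {p // Good h r p} := fun k =>
    Nat.rec ⟨_, h0⟩ (fun k q => ⟨f (e k) q, (hf (e k) q).1⟩) k
  exact ⟨fun k => (p k).1, fun k => (hf (e k) (p k)).2⟩

/-- For all `h ≥ 2` and `r ≥ 1` there is an `r`-minimal asymptotic basis of order `h`. -/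
theorem result (h r : ℕ) (hh : 2 ≤ h) (_hr : 1 ≤ r) : ∃ A : Set ℕ, IsRMinimal h r A := by
  classical
  obtain ⟨g, hg⟩ := exists_surjective_nat (Finset ℕ)
  let e : ℕ → Finset ℕ := fun k => g (Nat.unpair k).1
  have he : ∀ S k, ∃ j, k ≤ j ∧ e j = S := fun S k => by
    obtain ⟨i, hi⟩ := hg S
    exact ⟨Nat.pair i k, Nat.right_le_pair _ _, by simp [e, hi]⟩
  obtain ⟨p, hp⟩ := exists_seq (r := r) hh e
  have hmono : Monotone fun k => (p k).1 := monotone_nat_of_le_succ fun k => (hp k).1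
  have hsm : StrictMono fun k => (p k).2 := strictMono_nat_of_lt_succ fun k => (hp k).2.2.1
  have hge : ∀ k, k ≤ (p k).2 := fun k => hsm.id_le k
  have hold : ∀ k j, k ≤ j → ∀ x ∈ (p j).1, x ≤ (p k).2 → x ∈ (p k).1 := by
    intro k j hkj
    induction j, hkj using Nat.le_induction with
    | base => intro x hx _; exact hx
    | succ j hkj ih =>
      intro x hx hxk
      exact ih x ((hp j).2.1 x hx (hxk.trans (hsm.monotone hkj))) hxk
  let A : Set ℕ := ⋃ k, (p k).1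
  have hsubA : ∀ k, (p k).1 ⊆ A := fun k => Set.subset_iUnion (fun k => (p k).1) k
  have hA : ∀ k, ∀ x ∈ A, x ≤ (p k).2 → x ∈ (p k).1 := by
    intro k x hx hxk
    obtain ⟨j, hj⟩ := Set.mem_iUnion.mp hx
    rcases le_total j k with hjk | hjk
    · exact hmono hjk hj
    · exact hold k j hjk x hj hxk
  refine ⟨A, fun S hS => ⟨fun hb => ?_, fun hlt => ?_⟩⟩
  · by_contra hc
    push Not at hc
    obtain ⟨T, hTS, hT⟩ := Set.exists_subset_encard_eq hc
    have hTf : T.Finite := Set.finite_of_encard_eq_coe hT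
    obtain ⟨T, rfl⟩ := hTf.exists_finset_coe
    have hTc : T.card = r := by
      rw [Set.encard_coe_eq_coe_finsetCard] at hT
      exact_mod_cast hT
    obtain ⟨b, hb⟩ := hb.bddAbove
    obtain ⟨j, hj, hje⟩ := he T (b + T.sup id)
    have hjp := hge j
    obtain ⟨y, hy1, hy2, hy3⟩ := (hp j).2.2.2.2 (by
      rw [hje]
      intro x hx
      have : x ≤ T.sup id := Finset.le_sup (f := id) hx
      exact hA j x (hS (hTS hx)) (by omega)) (by rw [hje, hTc])
    rw [hje] at hy3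
    have : y ≤ b := by
      apply hb
      intro hs
      apply hy3
      exact hs.mono' fun x hx hxy => ⟨hA (j + 1) x hx.1 (by omega), fun hxT => hx.2 (hTS hxT)⟩
    omega
  · have hSf : S.Finite := Set.finite_of_encard_le_coe hlt.le
    obtain ⟨F, rfl⟩ := hSf.exists_finset_coe
    have hFc : F.card < r := by
      rw [Set.encard_coe_eq_coe_finsetCard] at hlt
      exact_mod_cast hlt
    let k0 := F.sup id
    refine (Set.finite_Iic (h * (p k0).2)).subset fun n hn => ?_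
    by_contra hc
    have hc : h * (p k0).2 < n := not_le.mp hc
    apply hn
    have hex : ∃ j, n ≤ h * (p (k0 + j + 1)).2 := by
      refine ⟨n, ?_⟩
      have h1 := hge (k0 + n + 1)
      have h2 : (p (k0 + n + 1)).2 ≤ h * (p (k0 + n + 1)).2 :=
        Nat.le_mul_of_pos_left _ (by omega)
      omega
    have h1 := Nat.find_spec hex
    have h2 : h * (p (k0 + Nat.find hex)).2 < n := by
      rcases Nat.eq_zero_or_pos (Nat.find hex) with h0 | h0
      · rw [h0]; exact hc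
      · have := Nat.find_min hex (m := Nat.find hex - 1) (by omega)
        rw [show k0 + (Nat.find hex - 1) + 1 = k0 + Nat.find hex by omega] at this
        exact not_le.mp this
    refine ((hp (k0 + Nat.find hex)).2.2.2.1 F ?_ hFc n h2 h1).mono
      (Set.sdiff_subset_sdiff_left (hsubA _))
    intro x hx
    have h3 : x ≤ k0 := Finset.le_sup (f := id) hx
    have h4 := hge (k0 + Nat.find hex)
    omega

end Pool.Agent.Results.MP_f804be_nt.Full
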